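import Pool.Agent.Lib.MP_de5887_an.Tile.Sy

set_option autoImplicit false

open Finset

namespace Pool.Agent.Lib.MP_de5887_an.Tile

open Low

/-- The relative loss is at most `exp (-(1/400) * sqrt d)` times the loss of the address function. -/
theorem loss {q : ℝ} (hq : 0 < q) {l : ℝ} (hl : l = 2 * (1 / 2) ^ q) {d : ℕ} (hd : 2 ≤ d)
    (ht : 1.386 ≤ ((d : ℝ) + 1) * (2 * l - 1)) :
    ∃ m : ℝ, One q d ((2 * l) ^ d * m) ∧
      1 - Real.exp (-(1 / 400) * √(d : ℝ)) * (1 - (2 * l)⁻¹) ≤ m := by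
  have hd0 : (0 : ℝ) < (d : ℝ) + 1 := by positivity
  have hs1 : 0 < 2 * l - 1 := by
    by_contra hc
    nlinarith [not_lt.1 hc]
  obtain ⟨w, hw⟩ : ∃ w, w = (2 * l)⁻¹ := ⟨_, rfl⟩
  have hw0 : 0 < w := by rw [hw]; apply inv_pos.2; linarith
  have hw1 : w * (2 * l) = 1 := by rw [hw]; exact inv_mul_cancel₀ (by linarith)
  have hη : 1 - w = w * (2 * l - 1) := by linarith
  have hwd : 1.386 * w ≤ ((d : ℝ) + 1) * (1 - w) := by rw [hη]; nlinarith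
  have hη0 : 0 < 1 - w := by rw [hη]; positivity
  rcases lt_or_ge d 64 with h64 | h64
  · obtain ⟨j, hj, hj'⟩ : ∃ j : ℕ, 2 + 2 * j ≤ d ∧ d + 1 ≤ 2 * j + 4 := ⟨(d - 2) / 2, by omega, by omega⟩
    refine ⟨_, small hq hl j hj, ?_⟩
    rw [← hw]
    have h2 : j + 1 ≤ 2 ^ j := Nat.lt_two_pow_self
    have h3 : (d : ℝ) + 1 ≤ 4 * 2 ^ j := by
      have : d + 1 ≤ 4 * 2 ^ j := by omega
      exact_mod_cast this
    have h4 : ((1 : ℝ) / 2) ^ j * 2 ^ j = 1 := by rw [← mul_pow]; norm_num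
    have h5 : (0 : ℝ) < (1 / 2) ^ j := by positivity
    have h6 : 1.386 * (w * (1 / 2) ^ j) ≤ 4 * (1 - w) := by
      have h7 : 1.386 * w ≤ 4 * 2 ^ j * (1 - w) := hwd.trans (by gcongr)
      calc 1.386 * (w * (1 / 2) ^ j) = 1.386 * w * (1 / 2) ^ j := by ring
        _ ≤ 4 * 2 ^ j * (1 - w) * (1 / 2) ^ j := by gcongr
        _ = 4 * (1 - w) * ((1 / 2) ^ j * 2 ^ j) := by ring
        _ = 4 * (1 - w) := by rw [h4, mul_one]
    have h8 : √(d : ℝ) ≤ 8 := Real.sqrt_le_iff.2 ⟨by norm_num, by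
      have : (d : ℝ) ≤ 64 := by exact_mod_cast h64.le
      linarith⟩
    have h9 : 0.98 ≤ Real.exp (-(1 / 400) * √(d : ℝ)) := by
      have := Real.add_one_le_exp (-(1 / 400) * √(d : ℝ))
      linarith
    nlinarith [mul_le_mul_of_nonneg_right h9 hη0.le]
  · obtain ⟨k, hk1, hk, hk'⟩ : ∃ k : ℕ, 1 ≤ k ∧ 64 * (k * k) ≤ d ∧ d < 64 * ((k + 1) * (k + 1)) := by
      refine ⟨Nat.sqrt (d / 64), Nat.le_sqrt.2 (by omega), ?_, ?_⟩
      · have := Nat.sqrt_le (d / 64)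
        omega
      · have := Nat.lt_succ_sqrt (d / 64)
        simp only [Nat.succ_eq_add_one] at this
        omega
    obtain ⟨m, h, -, -, he⟩ := big hq hl (by linarith) (3 * k + 7) (k + 1)
    refine ⟨m, one_up hl (by omega) (by nlinarith) h, ?_⟩
    rw [← hw] at he ⊢
    have h2 : k + 1 ≤ 2 ^ k := Nat.lt_two_pow_self
    have h3 : (d : ℝ) + 1 ≤ 2 ^ (2 * k + 6) := by
      have : d + 1 ≤ 2 ^ (2 * k + 6) := by
        calc d + 1 ≤ 64 * ((k + 1) * (k + 1)) := hk'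
          _ ≤ 64 * (2 ^ k * 2 ^ k) := by gcongr
          _ = 2 ^ (2 * k + 6) := by ring
      exact_mod_cast this
    have hd64 : (64 : ℝ) ≤ d := by exact_mod_cast h64
    have h4 : 1 ≤ ((d : ℝ) + 1) * (1 - w) := by
      rcases le_or_gt w (3 / 4) with h' | h'
      · nlinarith
      · nlinarith
    have h5 : ((1 : ℝ) / 2) ^ (2 * k + 6) ≤ 1 - w := by
      have e : ((1 : ℝ) / 2) ^ (2 * k + 6) * 2 ^ (2 * k + 6) = 1 := by rw [← mul_pow]; norm_num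
      have h6 : 1 ≤ 2 ^ (2 * k + 6) * (1 - w) := h4.trans (by gcongr)
      have h7 : (0 : ℝ) < (1 / 2) ^ (2 * k + 6) := by positivity
      calc ((1 : ℝ) / 2) ^ (2 * k + 6) = (1 / 2) ^ (2 * k + 6) * 1 := by ring
        _ ≤ (1 / 2) ^ (2 * k + 6) * (2 ^ (2 * k + 6) * (1 - w)) := by gcongr
        _ = 1 - w := by rw [← mul_assoc, e, one_mul]
    have h6 : ((1 : ℝ) / 2) ^ (3 * k + 7) ≤ (1 - w) * (1 / 2) ^ (k + 1) := by
      rw [show 3 * k + 7 = 2 * k + 6 + (k + 1) by ring, pow_add]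
      gcongr
    have h7 : √(d : ℝ) ≤ 16 * k := Real.sqrt_le_iff.2 ⟨by positivity, by
      have : d ≤ (16 * k) ^ 2 := by nlinarith
      exact_mod_cast this⟩
    have h8 : ((1 : ℝ) / 2) ^ k ≤ Real.exp (-(1 / 400) * √(d : ℝ)) := by
      have h9 : (1 : ℝ) / 2 ≤ Real.exp (-(1 / 25)) := by
        have := Real.add_one_le_exp (-(1 / 25) : ℝ)
        linarith
      calc ((1 : ℝ) / 2) ^ k ≤ Real.exp (-(1 / 25)) ^ k := by gcongr
        _ = Real.exp (k * -(1 / 25)) := (Real.exp_nat_mul _ _).symm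
        _ ≤ _ := Real.exp_le_exp.2 (by linarith)
    rw [pow_succ ((1 : ℝ) / 2) k] at h6 he
    nlinarith [mul_le_mul_of_nonneg_right h8 hη0.le]

theorem near_two (d : ℕ) (hd : 2 ≤ d) : ∃ (n : ℕ) (a : Finset (Fin n) → ℝ),
    (∀ x : Fin n → ℝ, (∀ i, x i = 1 ∨ x i = -1) →
      |∑ S ∈ (univ : Finset (Fin n)).powersetCard d, a S * ∏ i ∈ S, x i| ≤ 1) ∧
    2 - (2 - (2 : ℝ) ^ (((d : ℝ) - 1) / d)) * Real.exp (-(1 / 400) * √(d : ℝ)) ≤
      (∑ S ∈ (univ : Finset (Fin n)).powersetCard d,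
        |a S| ^ ((2 * (d : ℝ)) / ((d : ℝ) + 1))) ^ (((d : ℝ) + 1) / (2 * (d : ℝ))) := by
  have hd2 : (2 : ℝ) ≤ d := by exact_mod_cast hd
  have hq : 0 < (2 * (d : ℝ)) / ((d : ℝ) + 1) := by positivity
  have two : (0 : ℝ) < 2 := by norm_num
  have e1 : 2 * (2 * ((1 : ℝ) / 2) ^ ((2 * (d : ℝ)) / ((d : ℝ) + 1))) =
      2 ^ (2 / ((d : ℝ) + 1)) := by
    rw [one_div, Real.inv_rpow two.le, ← Real.rpow_neg two.le,
      show 2 / ((d : ℝ) + 1) = 1 + (1 + -(2 * (d : ℝ) / ((d : ℝ) + 1))) by field_simp; ring,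
      Real.rpow_add two, Real.rpow_add two, Real.rpow_one]
  obtain ⟨m, h, hm⟩ := loss hq rfl hd (by
    rw [e1, Real.rpow_def_of_pos two]
    have h1 := Real.add_one_le_exp (Real.log 2 * (2 / ((d : ℝ) + 1)))
    have h2 : ((d : ℝ) + 1) * (Real.log 2 * (2 / ((d : ℝ) + 1))) = 2 * Real.log 2 := by field_simp
    have h3 := Real.log_two_gt_d9
    nlinarith)
  obtain ⟨n, a, ha, hs⟩ := h.out hq
  refine ⟨n, a, ha, ?_⟩
  rw [hs, e1]
  rw [e1] at hm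
  obtain ⟨θ, hθ⟩ : ∃ θ, θ = Real.exp (-(1 / 400) * √(d : ℝ)) := ⟨_, rfl⟩
  rw [← hθ] at hm ⊢
  have hθ0 : 0 ≤ θ := by rw [hθ]; positivity
  have hθ1 : θ ≤ 1 := by
    rw [hθ]
    exact Real.exp_le_one_iff.2 (by nlinarith [Real.sqrt_nonneg (d : ℝ)])
  have hp0 : 0 ≤ ((d : ℝ) + 1) / (2 * (d : ℝ)) := by positivity
  have hp1 : ((d : ℝ) + 1) / (2 * (d : ℝ)) ≤ 1 := by
    rw [div_le_one (by positivity)]
    linarith
  have hw0 : (0 : ℝ) ≤ ((2 : ℝ) ^ (2 / ((d : ℝ) + 1)))⁻¹ := by positivity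
  have hc := (Real.concaveOn_rpow hp0 hp1).2 (Set.mem_Ici.2 (zero_le_one' ℝ))
    (Set.mem_Ici.2 hw0) (sub_nonneg.2 hθ1) hθ0
    (sub_add_cancel 1 θ)
  simp only [smul_eq_mul, Real.one_rpow, mul_one] at hc
  have h0 : 0 ≤ 1 - θ + θ * ((2 : ℝ) ^ (2 / ((d : ℝ) + 1)))⁻¹ :=
    add_nonneg (sub_nonneg.2 hθ1) (mul_nonneg hθ0 hw0)
  have hm' : 1 - θ + θ * ((2 : ℝ) ^ (2 / ((d : ℝ) + 1)))⁻¹ ≤ m := by linarith
  have e2 : (((2 : ℝ) ^ (2 / ((d : ℝ) + 1))) ^ d) ^ (((d : ℝ) + 1) / (2 * (d : ℝ))) = 2 := by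
    rw [← Real.rpow_natCast, ← Real.rpow_mul two.le, ← Real.rpow_mul two.le,
      show 2 / ((d : ℝ) + 1) * d * (((d : ℝ) + 1) / (2 * (d : ℝ))) = 1 by field_simp, Real.rpow_one]
  have e3 : 2 * (((2 : ℝ) ^ (2 / ((d : ℝ) + 1)))⁻¹) ^ (((d : ℝ) + 1) / (2 * (d : ℝ))) =
      2 ^ (((d : ℝ) - 1) / d) := by
    rw [← Real.rpow_neg two.le, ← Real.rpow_mul two.le,
      show ((d : ℝ) - 1) / d = 1 + -(2 / ((d : ℝ) + 1)) * (((d : ℝ) + 1) / (2 * (d : ℝ))) by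
        field_simp; ring, Real.rpow_add two, Real.rpow_one]
  rw [Real.mul_rpow (by positivity) (h0.trans hm'), e2, ← e3]
  have h1 := hc.trans (Real.rpow_le_rpow h0 hm' hp0)
  linarith

end Pool.Agent.Lib.MP_de5887_an.Tile
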