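import Pool.Agent.Lib.MP_de5887_an.Tile.Sy

set_option autoImplicit false

open Finset

namespace Pool.Agent.Lib.MP_de5887_an.Tile

open Low

lemma val_smul {ι M : Type} [Fintype M] (mon : M → Finset ι) (c : ℝ) (F : M → ℝ) (x : ι → ℝ) :
    Low.val mon (c • F) x = c * Low.val mon F x := by
  simp only [Low.val, Pi.smul_apply, smul_eq_mul, mul_sum, mul_assoc]

lemma pw_smul {M : Type} [Fintype M] (q c : ℝ) (F : M → ℝ) : pw q (c • F) = |c| ^ q * pw q F := by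
  simp only [pw, Pi.smul_apply, smul_eq_mul, abs_mul, Real.mul_rpow (abs_nonneg _) (abs_nonneg _),
    mul_sum]

/-- Half the sum and half the difference of two copies. -/
theorem sy_pair {q : ℝ} (hq : 0 < q) {l : ℝ} (hl : l = 2 * (1 / 2) ^ q) {D : ℕ} (hD : 1 ≤ D)
    {s : ℝ} (h : One q D s) : Sy q D (l * s) 0 (l * s) 0 := by
  obtain ⟨ι, M, _, _, mon, F, hi, hc, hs, rfl⟩ := h
  refine ⟨ι ⊕ ι, M ⊕ M, inferInstance, inferInstance, jm mon mon,
    jl M ((1 / 2 : ℝ) • F) + jr M ((1 / 2 : ℝ) • F), 0,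
    jl M ((1 / 2 : ℝ) • F) + jr M ((-(1 / 2) : ℝ) • F), 0, jm_inj hi hi hD hc, jm_card hc hc,
    fun x hx => ?_, ⟨dj_zero, dj_zero, dj_zero.symm⟩, ?_, pw_zero hq, ?_, pw_zero hq⟩
  · obtain ⟨h1, h2⟩ := abs_le.1 (hs (x ∘ .inl) fun i => hx _)
    obtain ⟨h3, h4⟩ := abs_le.1 (hs (x ∘ .inr) fun i => hx _)
    simp only [val_add, val_jl, val_jr, val_smul, val_zero, abs_zero, add_zero]
    refine ⟨abs_le.2 ⟨by linarith, by linarith⟩, ?_, zero_le_one⟩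
    rcases abs_cases (1 / 2 * Low.val mon F (x ∘ .inl) + 1 / 2 * Low.val mon F (x ∘ .inr)) with
      ⟨e, -⟩ | ⟨e, -⟩ <;>
    rcases abs_cases (1 / 2 * Low.val mon F (x ∘ .inl) + -(1 / 2) * Low.val mon F (x ∘ .inr)) with
      ⟨e', -⟩ | ⟨e', -⟩ <;> rw [e, e'] <;> linarith
  · rw [pw_add hq dj_lr, pw_jl hq, pw_jr hq, pw_smul, hl, abs_of_pos (show (0 : ℝ) < 1 / 2 by norm_num)]
    ring
  · rw [pw_add hq dj_lr, pw_jl hq, pw_jr hq, pw_smul, pw_smul, hl, abs_neg,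
      abs_of_pos (show (0 : ℝ) < 1 / 2 by norm_num)]
    ring

theorem pair_round {q : ℝ} (hq : 0 < q) {l : ℝ} (hl : l = 2 * (1 / 2) ^ q) {D : ℕ} (hD : 1 ≤ D)
    {m : ℝ} (h : One q D ((2 * l) ^ D * m)) (j : ℕ) :
    One q (D + 2 * j) ((2 * l) ^ (D + 2 * j) * (m * (1 + ((2 * l - 1) / 2 - (1 / 2) ^ j / 2)))) := by
  have h1 : Sy q D ((2 * l) ^ D * (l * m)) ((2 * l) ^ D * 0) ((2 * l) ^ D * (l * m))
      ((2 * l) ^ D * m) := by
    convert (sy_pair hq hl hD h).restart hq hD h using 1 <;> ring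
  convert (h1.iter hq hl hD j).one hq using 1
  ring

theorem pair_all {q : ℝ} (hq : 0 < q) {l : ℝ} (hl : l = 2 * (1 / 2) ^ q) (j k : ℕ) :
    One q (1 + 2 * j * k) ((2 * l) ^ (1 + 2 * j * k) *
      ((2 * l)⁻¹ * (1 + ((2 * l - 1) / 2 - (1 / 2) ^ j / 2)) ^ k)) := by
  have hl0 : 0 < l := by rw [hl]; positivity
  induction k with
  | zero =>
    rw [mul_zero, add_zero, pow_one, pow_zero, mul_one, mul_inv_cancel₀ (by positivity)]
    exact one_one hq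
  | succ k ih =>
    have e : 1 + 2 * j * (k + 1) = 1 + 2 * j * k + 2 * j := by ring
    rw [e, pow_succ _ k, ← mul_assoc (2 * l)⁻¹]
    exact pair_round hq hl (by omega) ih j

/-- The gain over the address function. -/
theorem gain {q : ℝ} (hq : 0 < q) {l : ℝ} (hl : l = 2 * (1 / 2) ^ q) {d : ℕ} (hd : 2 ≤ d)
    (ht : 1.386 / ((d : ℝ) + 1) + (1.386 / ((d : ℝ) + 1)) ^ 2 / 2 ≤ 2 * l - 1) :
    ∃ y : ℝ, One q d ((2 * l) ^ d * ((2 * l)⁻¹ * (1 + y))) ∧ 0.0487 ≤ y * Nat.log 2 d := by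
  have hl0 : 0 < l := by rw [hl]; positivity
  have hd0 : (0 : ℝ) < (d : ℝ) + 1 := by positivity
  rcases lt_or_ge d 32 with h32 | h32
  · refine ⟨3 / 4 * (2 * l - 1) - (1 / 2) ^ ((d - 2) / 2) / 4, ?_, ?_⟩
    · convert small hq hl ((d - 2) / 2) (show 2 + 2 * ((d - 2) / 2) ≤ d by omega) using 2
      field_simp
      ring
    · interval_cases d <;> norm_num at ht ⊢ <;> linarith
  · obtain ⟨i, hi⟩ : ∃ i, i = Nat.log 2 d := ⟨_, rfl⟩
    have h1 : 2 ^ i ≤ d := hi ▸ Nat.pow_log_le_self 2 (by omega)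
    have h2 : d < 2 ^ (i + 1) := hi ▸ Nat.lt_pow_succ_log_self (by norm_num) d
    have h5 : 5 ≤ i := by
      by_contra hc
      have : 2 ^ (i + 1) ≤ 2 ^ 5 := Nat.pow_le_pow_right (by norm_num) (by omega)
      omega
    have h6 : 4 * (i + 2) ≤ 2 ^ i := by
      clear h1 h2 hi
      induction i, h5 using Nat.le_induction with
      | base => norm_num
      | succ i _ ih => rw [pow_succ]; omega
    obtain ⟨k, hk⟩ : ∃ k, k = (d - 1) / (2 * (i + 2)) := ⟨_, rfl⟩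
    have hk1 : 2 * (i + 2) * k ≤ d - 1 := hk ▸ Nat.mul_div_le _ _
    have hk2 : d - 1 < 2 * (i + 2) * (k + 1) := hk ▸ Nat.lt_mul_div_succ _ (by omega)
    have hk3 : d ≤ 4 * (i + 2) * k := by
      have : d ≤ 2 * (i + 2) * (k + 1) := by omega
      nlinarith
    obtain ⟨g, hg⟩ : ∃ g : ℝ, g = (2 * l - 1) / 2 - (1 / 2) ^ (i + 2) / 2 := ⟨_, rfl⟩
    have hp : ((1 : ℝ) / 2) ^ (i + 2) * ((d : ℝ) + 1) ≤ 1 / 2 := by
      have e : ((1 : ℝ) / 2) ^ (i + 1) * 2 ^ (i + 1) = 1 := by rw [← mul_pow]; norm_num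
      have h7 : (d : ℝ) + 1 ≤ 2 ^ (i + 1) := by exact_mod_cast h2
      calc ((1 : ℝ) / 2) ^ (i + 2) * ((d : ℝ) + 1) ≤ (1 / 2) ^ (i + 2) * 2 ^ (i + 1) := by gcongr
        _ = (1 / 2) ^ (i + 1) * 2 ^ (i + 1) * (1 / 2) := by ring
        _ = 1 / 2 := by rw [e, one_mul]
    have ht' : 1.386 ≤ (2 * l - 1) * ((d : ℝ) + 1) := by
      rw [← div_le_iff₀ hd0]
      exact le_trans (le_add_of_nonneg_right (by positivity)) ht
    have hg1 : 0.443 ≤ g * ((d : ℝ) + 1) := by rw [hg]; linarith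
    have hg0 : 0 ≤ g := by
      by_contra hc
      nlinarith [not_le.1 hc]
    have h := pair_all hq hl (i + 2) k
    rw [← hg] at h
    refine ⟨(1 + g) ^ k - 1, ?_, ?_⟩
    · rw [add_sub_cancel]
      exact one_up hl (by omega) (by omega) h
    · rw [← hi]
      have h7 := one_add_mul_le_pow (show -2 ≤ g by linarith) k
      have h8 : (d : ℝ) ≤ 4 * ((i : ℝ) + 2) * k := by exact_mod_cast hk3
      have h9 : (5 : ℝ) ≤ i := by exact_mod_cast h5
      have h10 : (32 : ℝ) ≤ d := by exact_mod_cast h32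
      have hk0 : (0 : ℝ) ≤ k := by positivity
      have h11 : (d : ℝ) ≤ 5.6 * (i * k) := by nlinarith
      have h12 : (d : ℝ) + 1 ≤ 6 * (i * k) := by linarith
      have h13 : 0.443 ≤ g * (6 * (i * k)) := hg1.trans (by gcongr)
      nlinarith [mul_le_mul_of_nonneg_right h7 (show (0 : ℝ) ≤ i by positivity)]

theorem above_two (d : ℕ) (hd : 2 ≤ d) : ∃ (n : ℕ) (a : Finset (Fin n) → ℝ),
    (∀ x : Fin n → ℝ, (∀ i, x i = 1 ∨ x i = -1) →
      |∑ S ∈ (univ : Finset (Fin n)).powersetCard d, a S * ∏ i ∈ S, x i| ≤ 1) ∧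
    (2 : ℝ) ^ (((d : ℝ) - 1) / d) * (1 + 1 / (60 * Real.log d)) ≤
      (∑ S ∈ (univ : Finset (Fin n)).powersetCard d,
        |a S| ^ ((2 * (d : ℝ)) / ((d : ℝ) + 1))) ^ (((d : ℝ) + 1) / (2 * (d : ℝ))) := by
  have hd2 : (2 : ℝ) ≤ d := by exact_mod_cast hd
  have hq : 0 < (2 * (d : ℝ)) / ((d : ℝ) + 1) := by positivity
  have two : (0 : ℝ) < 2 := by norm_num
  have h3 := Real.log_two_gt_d9
  have e1 : 2 * (2 * ((1 : ℝ) / 2) ^ ((2 * (d : ℝ)) / ((d : ℝ) + 1))) =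
      2 ^ (2 / ((d : ℝ) + 1)) := by
    rw [one_div, Real.inv_rpow two.le, ← Real.rpow_neg two.le,
      show 2 / ((d : ℝ) + 1) = 1 + (1 + -(2 * (d : ℝ) / ((d : ℝ) + 1))) by field_simp; ring,
      Real.rpow_add two, Real.rpow_add two, Real.rpow_one]
  obtain ⟨y, h, hy⟩ := gain hq rfl hd (by
    rw [e1, Real.rpow_def_of_pos two]
    have h1 := Real.quadratic_le_exp_of_nonneg
      (show 0 ≤ Real.log 2 * (2 / ((d : ℝ) + 1)) by positivity)
    have h2 : 1.386 / ((d : ℝ) + 1) ≤ Real.log 2 * (2 / ((d : ℝ) + 1)) := by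
      rw [← mul_div_assoc]
      gcongr
      linarith
    have h4 : (1.386 / ((d : ℝ) + 1)) ^ 2 ≤ (Real.log 2 * (2 / ((d : ℝ) + 1))) ^ 2 := by gcongr
    linarith)
  obtain ⟨n, a, ha, hs⟩ := h.out hq
  refine ⟨n, a, ha, ?_⟩
  rw [hs, e1]
  have hi1 : (1 : ℝ) ≤ Nat.log 2 d := by
    exact_mod_cast Nat.log_pos (by norm_num) hd
  have hlog : (Nat.log 2 d : ℝ) * Real.log 2 ≤ Real.log d := by
    rw [← Real.log_pow]
    exact Real.log_le_log (by positivity) (by exact_mod_cast Nat.pow_log_le_self 2 (by omega))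
  have hy0 : 0 ≤ y := by
    by_contra hc
    nlinarith [not_le.1 hc]
  obtain ⟨z, hz⟩ : ∃ z : ℝ, z = 1 / (60 * Real.log d) := ⟨_, rfl⟩
  have hL : 0.693 ≤ Real.log d := by nlinarith
  have hz0 : 0 ≤ z := by rw [hz]; positivity
  have hz1 : z * (60 * Real.log d) = 1 := by rw [hz]; field_simp
  have hz2 : z ≤ 0.0241 := by nlinarith
  have hz3 : 0.0487 * 0.693 ≤ y * Real.log d := by
    nlinarith [mul_le_mul_of_nonneg_left hlog hy0]
  have hz4 : (1 + z) ^ 2 ≤ 1 + y := by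
    have h5 : 2.0241 * z ≤ y := by
      by_contra hc
      nlinarith [mul_lt_mul_of_pos_right (not_le.1 hc) (show 0 < Real.log d by linarith)]
    nlinarith
  have e3 : (((2 : ℝ) ^ (2 / ((d : ℝ) + 1))) ^ d * ((2 : ℝ) ^ (2 / ((d : ℝ) + 1)))⁻¹) ^
      (((d : ℝ) + 1) / (2 * (d : ℝ))) = 2 ^ (((d : ℝ) - 1) / d) := by
    rw [← Real.rpow_natCast, ← Real.rpow_mul two.le, ← Real.rpow_neg two.le, ← Real.rpow_add two,
      ← Real.rpow_mul two.le]
    congr 1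
    field_simp
    ring
  rw [← mul_assoc, Real.mul_rpow (by positivity) (by positivity), e3, ← hz]
  refine mul_le_mul_of_nonneg_left ?_ (by positivity)
  calc 1 + z = ((1 + z) ^ 2) ^ (1 / 2 : ℝ) := by
        rw [← Real.rpow_natCast, ← Real.rpow_mul (by linarith)]
        norm_num
    _ ≤ ((1 + z) ^ 2) ^ (((d : ℝ) + 1) / (2 * d)) :=
        Real.rpow_le_rpow_of_exponent_le (by nlinarith) (by
          rw [div_le_div_iff₀ (by norm_num) (by positivity)]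
          linarith)
    _ ≤ _ := Real.rpow_le_rpow (by positivity) hz4 (by positivity)

end Pool.Agent.Lib.MP_de5887_an.Tile
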