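import Pool.Agent.Lib.MP_de5887_an.Low.Sys

set_option autoImplicit false

open Finset

namespace Pool.Agent.Lib.MP_de5887_an.Tile

open Low

section join

variable {ι κ M N : Type}

/-- The monomials of two families on disjoint sets of variables. -/
def jm (mon : M → Finset ι) (mon' : N → Finset κ) : M ⊕ N → Finset (ι ⊕ κ) :=
  Sum.elim (fun m => (mon m).disjSum ∅) (fun m => (∅ : Finset ι).disjSum (mon' m))

/-- A coefficient family placed on the left. -/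
def jl (N : Type) (F : M → ℝ) : M ⊕ N → ℝ := Sum.elim F 0

/-- A coefficient family placed on the right. -/
def jr (M : Type) (F : N → ℝ) : M ⊕ N → ℝ := Sum.elim 0 F

lemma jm_inj {mon : M → Finset ι} {mon' : N → Finset κ} (h : Function.Injective mon)
    (h' : Function.Injective mon') {D : ℕ} (hD : 1 ≤ D) (hc : ∀ m, (mon m).card = D) :
    Function.Injective (jm mon mon') := by
  rintro (m | m) (k | k) e <;> obtain ⟨h1, h2⟩ := disjSum_inj.1 e
  · rw [h h1]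
  · have := hc m
    rw [h1, card_empty] at this
    omega
  · have := hc k
    rw [← h1, card_empty] at this
    omega
  · rw [h' h2]

lemma jm_card {mon : M → Finset ι} {mon' : N → Finset κ} {D : ℕ} (hc : ∀ m, (mon m).card = D)
    (hc' : ∀ m, (mon' m).card = D) (k) : (jm mon mon' k).card = D := by
  rcases k with k | k <;> simp [jm, hc, hc']

lemma dj_jl {F G : M → ℝ} (h : Dj F G) : Dj (jl N F) (jl N G) := by
  rintro (k | k)
  · exact h k
  · simp [jl]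

lemma dj_jr {F G : N → ℝ} (h : Dj F G) : Dj (jr M F) (jr M G) := by
  rintro (k | k)
  · simp [jr]
  · exact h k

lemma dj_lr {F : M → ℝ} {G : N → ℝ} : Dj (jl N F) (jr M G) := by
  rintro (k | k) <;> simp [jl, jr]

lemma dj_rl {F : M → ℝ} {G : N → ℝ} : Dj (jr M G) (jl N F) := dj_lr.symm

lemma dj_zero {F : M → ℝ} : Dj F 0 := fun k => by simp

/-- The monomials after one more level. -/
def ex1 (mon : M → Finset ι) (k : Bool × M) : Finset (Bool ⊕ ι) :=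
  ({k.1} : Finset Bool).disjSum (mon k.2)

/-- The product of a linear form in the new block with `F`. -/
def t1 (α : Bool → ℝ) (F : M → ℝ) (k : Bool × M) : ℝ := α k.1 * F k.2

lemma ex1_inj {mon : M → Finset ι} (h : Function.Injective mon) :
    Function.Injective (ex1 mon) := by
  rintro ⟨k, m⟩ ⟨k', m'⟩ e
  obtain ⟨h1, h2⟩ := disjSum_inj.1 e
  exact Prod.ext (singleton_inj.1 h1) (h h2)

lemma ex1_card {mon : M → Finset ι} {D : ℕ} (h : ∀ m, (mon m).card = D) (k) :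
    (ex1 mon k).card = D + 1 := by
  unfold ex1
  rw [card_disjSum, h, card_singleton, add_comm]

lemma dj_t1 {F G : M → ℝ} (h : Dj F G) {α β : Bool → ℝ} : Dj (t1 α F) (t1 β G) := fun k => by
  unfold t1
  linear_combination (α k.1 * β k.1) * h k.2

variable [Fintype M] [Fintype N]

lemma val_jl (mon : M → Finset ι) (mon' : N → Finset κ) (F : M → ℝ) (x : ι ⊕ κ → ℝ) :
    val (jm mon mon') (jl N F) x = val mon F (x ∘ .inl) := by
  simp [Low.val, jm, jl, Fintype.sum_sum_type]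

lemma val_jr (mon : M → Finset ι) (mon' : N → Finset κ) (F : N → ℝ) (x : ι ⊕ κ → ℝ) :
    val (jm mon mon') (jr M F) x = val mon' F (x ∘ .inr) := by
  simp [Low.val, jm, jr, Fintype.sum_sum_type]

lemma pw_jl {q : ℝ} (hq : 0 < q) (F : M → ℝ) : pw q (jl N F) = pw q F := by
  simp [pw, jl, Fintype.sum_sum_type, Real.zero_rpow hq.ne']

lemma pw_jr {q : ℝ} (hq : 0 < q) (F : N → ℝ) : pw q (jr M F) = pw q F := by
  simp [pw, jr, Fintype.sum_sum_type, Real.zero_rpow hq.ne']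

lemma val_zero (mon : M → Finset ι) (x : ι → ℝ) : val mon 0 x = 0 := by simp [Low.val]

lemma pw_zero {q : ℝ} (hq : 0 < q) : pw q (0 : M → ℝ) = 0 := by
  simp [pw, Real.zero_rpow hq.ne']

lemma val_t1 (mon : M → Finset ι) (α : Bool → ℝ) (F : M → ℝ) (x : Bool ⊕ ι → ℝ) :
    val (ex1 mon) (t1 α F) x =
      (α true * x (.inl true) + α false * x (.inl false)) * val mon F (x ∘ .inr) := by
  simp only [Low.val, t1, ex1, Fintype.sum_prod_type, Fintype.sum_bool, prod_disjSum, prod_singleton,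
    mul_sum, ← sum_add_distrib, Function.comp]
  exact sum_congr rfl fun m _ => by ring

lemma pw_t1 (q : ℝ) (α : Bool → ℝ) (F : M → ℝ) : pw q (t1 α F) = pw q α * pw q F := by
  simp only [pw, t1, Fintype.sum_prod_type, Fintype.sum_bool, mul_sum, ← sum_add_distrib, abs_mul,
    Real.mul_rpow (abs_nonneg _) (abs_nonneg _)]
  exact sum_congr rfl fun m _ => by ring

end join

/-- A system of four `D`-homogeneous polynomials with given power sums. -/
def Sy (q : ℝ) (D : ℕ) (sA sB sP sQ : ℝ) : Prop :=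
  ∃ (ι M : Type) (_ : Fintype ι) (_ : Fintype M) (mon : M → Finset ι) (A B P Q : M → ℝ),
    Function.Injective mon ∧ (∀ m, (mon m).card = D) ∧
    (∀ x : ι → ℝ, (∀ i, x i = 1 ∨ x i = -1) → |val mon A x| + |val mon B x| ≤ 1 ∧
      |val mon A x| + |val mon P x| ≤ 1 ∧ |val mon B x| + |val mon Q x| ≤ 1) ∧
    (Dj A B ∧ Dj A Q ∧ Dj B P) ∧
    pw q A = sA ∧ pw q B = sB ∧ pw q P = sP ∧ pw q Q = sQ

theorem Sy.twist {q : ℝ} (hq : 0 < q) {D : ℕ} (hD : 1 ≤ D) {a b p r : ℝ} (h : Sy q D a b p r)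
    {l : ℝ} (hl : l = 2 * (1 / 2) ^ q) :
    Sy q (D + 2) (l ^ 2 * (3 * a + r)) (l ^ 2 * (3 * b + p)) (l ^ 2 * (3 * p + b))
      (l ^ 2 * (3 * r + a)) := by
  obtain ⟨ι, M, _, _, mon, A, B, P, Q, hi, hc, hs, ⟨d1, d2, d3⟩, rfl, rfl, rfl, rfl⟩ := h
  have d1' := d1.symm
  have d2' := d2.symm
  have d3' := d3.symm
  refine ⟨(Fin 5 × Bool) ⊕ (ι ⊕ ι), (Fin 7 × Bool × Bool) × (M ⊕ M), inferInstance, inferInstance,
    ext (jm mon mon),
    tm 2 l1 l1 (jl M A) + tm 2 l1 l0 (jl M Q) + tm 0 l0 l0 (jl M A) + tm 0 l1 l0 (jr M A),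
    tm 1 l0 l1 (jl M P) + tm 1 l0 l0 (jl M B) + tm 0 l1 l1 (jl M B) + tm 0 l1 l0 (jr M B),
    tm 0 l0 l0 (jl M P) + tm 2 l1 l1 (jl M P) + tm 2 l1 l0 (jl M B) + tm 0 l1 l0 (jr M P),
    tm 1 l0 l1 (jl M A) + tm 1 l0 l0 (jl M Q) + tm 0 l1 l1 (jl M Q) + tm 0 l1 l0 (jr M Q),
    ext_inj (jm_inj hi hi hD hc), ext_card (jm_card hc hc), fun x hx => ?_, ?_, ?_⟩
  · obtain ⟨h1, h2, h3⟩ := hs ((x ∘ .inr) ∘ .inl) fun i => hx _
    obtain ⟨h4, h5, h6⟩ := hs ((x ∘ .inr) ∘ .inr) fun i => hx _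
    simp only [val_add, val_tm, val_jl, val_jr, pr0, pr1, pr2]
    refine ⟨?_, ?_, ?_⟩ <;> rcases lf_cases hx 0 with ⟨a0, a1⟩ | ⟨a0, a1⟩ <;>
      rcases lf_cases hx 1 with ⟨b0, b1⟩ | ⟨b0, b1⟩ <;>
      rcases lf_cases hx 2 with ⟨c0, c1⟩ | ⟨c0, c1⟩ <;>
      simp only [a0, a1, b0, b1, c0, c1, mul_zero, zero_mul, add_zero, zero_add,
        abs_mul, one_mul] <;> linarith
  · refine ⟨?_, ?_, ?_⟩ <;>
      repeat' first
        | with_reducible apply Dj.addl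
        | with_reducible apply Dj.addr
        | exact dj_ne (by decide)
        | with_reducible exact dj_tm dj_lr
        | with_reducible exact dj_tm dj_rl
        | with_reducible exact dj_tm (dj_jl ‹_›)
        | with_reducible exact dj_tm (dj_jr ‹_›)
  · refine ⟨?_, ?_, ?_, ?_⟩ <;> (repeat rw [pw_add hq]) <;>
      first
        | (simp only [pw_tm hq, pw_jl hq, pw_jr hq, pw_l0, pw_l1, ← hl]; ring)
        | repeat' first
          | with_reducible apply Dj.addl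
          | with_reducible apply Dj.addr
          | exact dj_ne (by decide)
          | with_reducible exact dj_tm dj_lr
          | with_reducible exact dj_tm dj_rl
          | with_reducible exact dj_tm (dj_jl ‹_›)

theorem Sy.addr {q : ℝ} (hq : 0 < q) {D : ℕ} (hD : 1 ≤ D) {a b p r : ℝ} (h : Sy q D a b p r)
    {l : ℝ} (hl : l = 2 * (1 / 2) ^ q) :
    Sy q (D + 1) (2 * l * a) (2 * l * b) (2 * l * p) (2 * l * r) := by
  obtain ⟨ι, M, _, _, mon, A, B, P, Q, hi, hc, hs, ⟨d1, d2, d3⟩, rfl, rfl, rfl, rfl⟩ := h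
  refine ⟨Bool ⊕ (ι ⊕ ι), Bool × (M ⊕ M), inferInstance, inferInstance, ex1 (jm mon mon),
    t1 l0 (jl M A) + t1 l1 (jr M A), t1 l0 (jl M B) + t1 l1 (jr M B),
    t1 l0 (jl M P) + t1 l1 (jr M P), t1 l0 (jl M Q) + t1 l1 (jr M Q),
    ex1_inj (jm_inj hi hi hD hc), ex1_card (jm_card hc hc), fun x hx => ?_, ?_, ?_⟩
  · obtain ⟨h1, h2, h3⟩ := hs ((x ∘ .inr) ∘ .inl) fun i => hx _
    obtain ⟨h4, h5, h6⟩ := hs ((x ∘ .inr) ∘ .inr) fun i => hx _
    simp only [val_add, val_t1, val_jl, val_jr]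
    refine ⟨?_, ?_, ?_⟩ <;> rcases lit (hx (.inl true)) (hx (.inl false)) with ⟨a0, a1⟩ | ⟨a0, a1⟩ <;>
      simp only [a0, a1, zero_mul, add_zero, zero_add, abs_mul, one_mul] <;> assumption
  · refine ⟨?_, ?_, ?_⟩ <;>
      repeat' first
        | with_reducible apply Dj.addl
        | with_reducible apply Dj.addr
        | with_reducible exact dj_t1 dj_lr
        | with_reducible exact dj_t1 dj_rl
        | with_reducible exact dj_t1 (dj_jl ‹_›)
        | with_reducible exact dj_t1 (dj_jr ‹_›)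
  · refine ⟨?_, ?_, ?_, ?_⟩ <;> rw [pw_add hq (dj_t1 dj_lr)] <;>
      simp only [pw_t1, pw_jl hq, pw_jr hq, pw_l0, pw_l1, ← hl] <;> ring

theorem Sy.one {q : ℝ} (hq : 0 < q) {D : ℕ} {a b p r : ℝ} (h : Sy q D a b p r) :
    One q D (a + b) := by
  obtain ⟨ι, M, _, _, mon, A, B, P, Q, hi, hc, hs, ⟨d1, -⟩, rfl, rfl, -⟩ := h
  exact ⟨ι, M, inferInstance, inferInstance, mon, A + B, hi, hc,
    fun x hx => by rw [val_add]; exact (abs_add_le _ _).trans (hs x hx).1, pw_add hq d1⟩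

theorem Sy.restart {q : ℝ} (hq : 0 < q) {D : ℕ} (hD : 1 ≤ D) {a b p r s : ℝ} (h : Sy q D a b p r)
    (h' : One q D s) : Sy q D a 0 p s := by
  obtain ⟨ι, M, _, _, mon, A, B, P, Q, hi, hc, hs, -, rfl, rfl, rfl, rfl⟩ := h
  obtain ⟨κ, N, _, _, mon', F, hi', hc', hs', rfl⟩ := h'
  refine ⟨ι ⊕ κ, M ⊕ N, inferInstance, inferInstance, jm mon mon', jl N A, 0, jl N P, jr M F,
    jm_inj hi hi' hD hc, jm_card hc hc', fun x hx => ?_, ⟨dj_zero, dj_lr, dj_zero.symm⟩,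
    pw_jl hq _, pw_zero hq, pw_jl hq _, pw_jr hq _⟩
  obtain ⟨-, h2, -⟩ := hs (x ∘ .inl) fun i => hx _
  have h3 := hs' (x ∘ .inr) fun i => hx _
  simp only [val_jl, val_jr, val_zero, abs_zero, add_zero, zero_add]
  exact ⟨(le_add_of_nonneg_right (abs_nonneg _)).trans h2, h2, h3⟩

theorem sy_two {q : ℝ} (hq : 0 < q) {l : ℝ} (hl : l = 2 * (1 / 2) ^ q) :
    Sy q 2 (2 * l ^ 2) (l ^ 2) (2 * l ^ 2) (l ^ 2 + l) := by
  obtain ⟨ι, M, _, _, mon, A, B, P, Q, N, N', hi, hc, hs, ⟨d1, d2, d3, -⟩, e1, e2, e3, e4, -⟩ :=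
    good_base hq hl
  exact ⟨ι, M, inferInstance, inferInstance, mon, A, B, P, Q, hi, hc,
    fun x hx => ⟨(hs x hx).1, (hs x hx).2.1, (hs x hx).2.2.1⟩, ⟨d1, d2, d3⟩, e1, e2, e3, e4⟩

lemma val_unit (x : Empty → ℝ) : val (fun _ : Unit => (∅ : Finset Empty)) (fun _ => 1) x = 1 := by
  simp [Low.val]

lemma pw_unit (q : ℝ) : pw q (fun _ : Unit => (1 : ℝ)) = 1 := by simp [pw]

theorem sy_one {q : ℝ} (hq : 0 < q) {l : ℝ} (hl : l = 2 * (1 / 2) ^ q) : Sy q 1 l 0 l 0 := by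
  refine ⟨Bool ⊕ Empty, Bool × Unit, inferInstance, inferInstance, ex1 fun _ => ∅,
    t1 l0 fun _ => 1, 0, t1 l1 fun _ => 1, 0, ex1_inj fun _ _ _ => rfl,
    ex1_card (D := 0) fun _ => rfl, fun x hx => ?_, ⟨dj_zero, dj_zero, dj_zero.symm⟩, ?_,
    pw_zero hq, ?_, pw_zero hq⟩
  · simp only [val_t1, val_unit, val_zero, mul_one, abs_zero, add_zero]
    rcases lit (hx (.inl true)) (hx (.inl false)) with ⟨a0, a1⟩ | ⟨a0, a1⟩ <;> simp [a0, a1]
  · rw [pw_t1, pw_unit, pw_l0, hl, mul_one]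
  · rw [pw_t1, pw_unit, pw_l1, hl, mul_one]

theorem one_one {q : ℝ} (hq : 0 < q) : One q 1 1 := by
  refine ⟨Bool ⊕ Empty, Bool × Unit, inferInstance, inferInstance, ex1 fun _ => ∅,
    t1 (vr true) fun _ => 1, ex1_inj fun _ _ _ => rfl, ex1_card (D := 0) fun _ => rfl,
    fun x hx => ?_, ?_⟩
  · rw [val_t1, val_unit]
    rcases hx (.inl true) with h | h <;> simp [vr, h]
  · rw [pw_t1, pw_unit, pw_vr hq, mul_one]

theorem sy_half {q : ℝ} (hq : 0 < q) {l : ℝ} (hl : l = 2 * (1 / 2) ^ q) (D : ℕ) :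
    Sy q (D + 1) ((2 * l) ^ (D + 1) * (1 / 2)) 0 ((2 * l) ^ (D + 1) * (1 / 2)) 0 := by
  induction D with
  | zero => convert sy_one hq hl using 1 <;> ring
  | succ D ih => convert ih.addr hq (by omega) hl using 1 <;> ring

theorem Sy.iter {q : ℝ} (hq : 0 < q) {l : ℝ} (hl : l = 2 * (1 / 2) ^ q) {D : ℕ} (hD : 1 ≤ D)
    {a b p r : ℝ}
    (h : Sy q D ((2 * l) ^ D * a) ((2 * l) ^ D * b) ((2 * l) ^ D * p) ((2 * l) ^ D * r)) (j : ℕ) :
    Sy q (D + 2 * j) ((2 * l) ^ (D + 2 * j) * ((a + r) / 2 + (a - r) / 2 * (1 / 2) ^ j))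
      ((2 * l) ^ (D + 2 * j) * ((b + p) / 2 + (b - p) / 2 * (1 / 2) ^ j))
      ((2 * l) ^ (D + 2 * j) * ((b + p) / 2 - (b - p) / 2 * (1 / 2) ^ j))
      ((2 * l) ^ (D + 2 * j) * ((a + r) / 2 - (a - r) / 2 * (1 / 2) ^ j)) := by
  induction j with
  | zero => convert h using 1 <;> ring
  | succ j ih => convert ih.twist hq (by omega) hl using 1 <;> ring

theorem one_up {q : ℝ} {l : ℝ} (hl : l = 2 * (1 / 2) ^ q) {D d : ℕ} (hD : 1 ≤ D) (hd : D ≤ d)
    {m : ℝ} (h : One q D ((2 * l) ^ D * m)) : One q d ((2 * l) ^ d * m) := by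
  induction d, hd using Nat.le_induction with
  | base => exact h
  | succ d hd ih =>
    have h' := ih.step (hD.trans hd)
    rw [← hl] at h'
    convert h' using 1
    ring

theorem one_round {q : ℝ} (hq : 0 < q) {l : ℝ} (hl : l = 2 * (1 / 2) ^ q) {D : ℕ} (hD : 1 ≤ D)
    {m : ℝ} (h : One q D ((2 * l) ^ D * m)) (j : ℕ) :
    One q (D + 2 * j) ((2 * l) ^ (D + 2 * j) * ((1 + m) / 2 - m / 2 * (1 / 2) ^ j)) := by
  obtain ⟨D, rfl⟩ := Nat.exists_eq_add_of_le' hD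
  have h1 := (sy_half hq hl D).restart hq hD h
  rw [← mul_zero ((2 * l) ^ (D + 1))] at h1
  convert (h1.iter hq hl hD j).one hq using 1
  ring

/-- The bound that holds in every degree. -/
theorem small {q : ℝ} (hq : 0 < q) {l : ℝ} (hl : l = 2 * (1 / 2) ^ q) (j : ℕ) {d : ℕ}
    (hd : 2 + 2 * j ≤ d) :
    One q d ((2 * l) ^ d * (3 / 4 + (2 * l)⁻¹ / 4 - (2 * l)⁻¹ / 4 * (1 / 2) ^ j)) := by
  have hl0 : l ≠ 0 := by rw [hl]; positivity
  have h : Sy q 2 ((2 * l) ^ 2 * (1 / 2)) ((2 * l) ^ 2 * (1 / 4)) ((2 * l) ^ 2 * (1 / 2))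
      ((2 * l) ^ 2 * (1 / 4 + (2 * l)⁻¹ / 2)) := by
    convert sy_two hq hl using 1 <;> field_simp <;> ring
  refine one_up hl (by omega) hd ?_
  convert (h.iter hq hl (by omega) j).one hq using 1
  ring

/-- The bound after `k` rounds of `j` steps. -/
theorem big {q : ℝ} (hq : 0 < q) {l : ℝ} (hl : l = 2 * (1 / 2) ^ q) (h1 : 1 ≤ 2 * l) (j k : ℕ) :
    ∃ m : ℝ, One q (1 + 2 * j * k) ((2 * l) ^ (1 + 2 * j * k) * m) ∧ 0 ≤ m ∧ m ≤ 1 ∧
      1 - m ≤ (1 - (2 * l)⁻¹) * (1 / 2) ^ k + (1 / 2) ^ j := by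
  have ht : (0 : ℝ) < (1 / 2) ^ j := by positivity
  have ht1 : ((1 : ℝ) / 2) ^ j ≤ 1 := pow_le_one₀ (by norm_num) (by norm_num)
  induction k with
  | zero =>
    refine ⟨(2 * l)⁻¹, ?_, by positivity, inv_le_one_of_one_le₀ h1, by simp⟩
    rw [mul_zero, add_zero, pow_one, mul_inv_cancel₀ (by positivity)]
    exact one_one hq
  | succ k ih =>
    obtain ⟨m, h, h0, hm, he⟩ := ih
    refine ⟨(1 + m) / 2 - m / 2 * (1 / 2) ^ j, ?_, by nlinarith, by nlinarith, ?_⟩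
    · have e : 1 + 2 * j * (k + 1) = 1 + 2 * j * k + 2 * j := by ring
      rw [e]
      exact one_round hq hl (by omega) h j
    · rw [pow_succ]
      nlinarith

end Pool.Agent.Lib.MP_de5887_an.Tile
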